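import Mathlib

set_option autoImplicit false

/-! For every odd `p ≥ 5` an explicit infinite family of pairwise non-isomorphic internally
self-dual regular polyhedra of type `{p, p}` , given by triples of permutations. -/

namespace Pool.Agent.Results.MP_7f6698_co.InfiniteFamily

/-- the group generated by the triple -/
def gp {A : Type} [Group A] (ρ : Fin 3 → A) : Subgroup A := Subgroup.closure (Set.range ρ)

/-- the group generated by the triple `ρ` is, with these generators, a string C-group of rank 3,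
so that it is the automorphism group of an abstract regular polyhedron -/
def IsStringC {A : Type} [Group A] (ρ : Fin 3 → A) : Prop :=
  (∀ i, orderOf (ρ i) = 2) ∧ (ρ 0 * ρ 2) ^ 2 = 1 ∧
  Subgroup.closure {ρ 0, ρ 1} ⊓ Subgroup.closure {ρ 1, ρ 2} = Subgroup.closure {ρ 1}

/-- the polyhedron has type `{p, q}` -/
def HasType {A : Type} [Group A] (ρ : Fin 3 → A) (p q : ℕ) : Prop :=
  orderOf (ρ 0 * ρ 1) = p ∧ orderOf (ρ 1 * ρ 2) = q

/-- the polyhedron is internally self-dual -/
def InternallySelfDual {A : Type} [Group A] (ρ : Fin 3 → A) : Prop :=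
  ∃ g ∈ gp ρ, ∀ i, g⁻¹ * ρ i * g = ρ (Fin.rev i)

/-- the polyhedra given by two triples are isomorphic -/
def Iso {A B : Type} [Group A] [Group B] (ρ : Fin 3 → A) (σ : Fin 3 → B) : Prop :=
  ∃ φ : gp ρ ≃* gp σ, ∀ i, ((φ ⟨ρ i, Subgroup.subset_closure ⟨i, rfl⟩⟩ : gp σ) : B) = σ i

/-- the set which is permuted -/
abbrev X (p m : ℕ) : Type := ZMod p × ZMod p × ZMod m

/-- `i` and `j` are distinct and not neighbours in the cycle of length `p` -/
def NonAdj {p : ℕ} (i j : ZMod p) : Prop := i ≠ j ∧ i ≠ j + 1 ∧ j ≠ i + 1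

open Classical in
/-- the map underlying `e` -/
noncomputable def eFun {p m : ℕ} (k : ZMod p) (a : X p m) : X p m :=
  if NonAdj a.1 a.2.1 then
    (if k = a.1 then (a.1, a.2.1, -a.2.2) else if k = a.2.1 then (a.1, a.2.1, 1 - a.2.2) else a)
  else a

lemma eFun_fst {p m : ℕ} (k : ZMod p) (a : X p m) : (eFun k a).1 = a.1 := by
  unfold eFun; split_ifs <;> rfl

lemma eFun_snd {p m : ℕ} (k : ZMod p) (a : X p m) : (eFun k a).2.1 = a.2.1 := by
  unfold eFun; split_ifs <;> rfl

lemma eFun_pos1 {p m : ℕ} {k i j : ZMod p} (x : ZMod m) (h : NonAdj i j) (h1 : k = i) :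
    eFun k (i, j, x) = (i, j, -x) := by
  unfold eFun
  rw [if_pos h, if_pos h1]

lemma eFun_pos2 {p m : ℕ} {k i j : ZMod p} (x : ZMod m) (h : NonAdj i j) (h1 : ¬ k = i)
    (h2 : k = j) : eFun k (i, j, x) = (i, j, 1 - x) := by
  unfold eFun
  rw [if_pos h, if_neg h1, if_pos h2]

lemma eFun_pos3 {p m : ℕ} {k i j : ZMod p} (x : ZMod m) (h : NonAdj i j) (h1 : ¬ k = i)
    (h2 : ¬ k = j) : eFun k (i, j, x) = (i, j, x) := by
  unfold eFun
  rw [if_pos h, if_neg h1, if_neg h2]

lemma eFun_neg {p m : ℕ} {k i j : ZMod p} (x : ZMod m) (h : ¬ NonAdj i j) :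
    eFun k (i, j, x) = (i, j, x) := by
  unfold eFun
  rw [if_neg h]

lemma eFun_inv {p m : ℕ} (k : ZMod p) (a : X p m) : eFun k (eFun k a) = a := by
  obtain ⟨i, j, x⟩ := a
  by_cases h : NonAdj i j
  · by_cases h1 : k = i
    · rw [eFun_pos1 x h h1, eFun_pos1 _ h h1, neg_neg]
    · by_cases h2 : k = j
      · rw [eFun_pos2 x h h1 h2, eFun_pos2 _ h h1 h2, sub_sub_cancel]
      · rw [eFun_pos3 x h h1 h2, eFun_pos3 _ h h1 h2]
  · rw [eFun_neg x h, eFun_neg x h]

/-- the involution `e k` : in the block `(i, j)` with `i, j` non-adjacent it is `x ↦ -x` if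
`k = i`, it is `x ↦ 1 - x` if `k = j`, and it is the identity otherwise -/
noncomputable def e {p m : ℕ} (k : ZMod p) : Equiv.Perm (X p m) :=
  ⟨eFun k, eFun k, eFun_inv k, eFun_inv k⟩

/-- a permutation of the `p` indices permutes the blocks -/
def r {p : ℕ} (m : ℕ) : Equiv.Perm (ZMod p) →* Equiv.Perm (X p m) where
  toFun σ := ⟨fun a => (σ a.1, σ a.2.1, a.2.2), fun a => (σ⁻¹ a.1, σ⁻¹ a.2.1, a.2.2),
    fun a => by simp, fun a => by simp⟩
  map_one' := by ext a <;> rfl
  map_mul' σ τ := by ext a <;> rfl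

/-- the reflection `x ↦ 1 - x` of the cycle -/
def s0 (p : ℕ) : Equiv.Perm (ZMod p) := Equiv.subLeft 1
/-- the reflection `x ↦ -x` of the cycle -/
def s1 (p : ℕ) : Equiv.Perm (ZMod p) := Equiv.neg (ZMod p)

/-- the generators -/
noncomputable def gens (p m : ℕ) : Fin 3 → Equiv.Perm (X p m) :=
  ![r m (s0 p), r m (s1 p), e 0 * r m (s0 p) * e 0]

section

variable {p m : ℕ}

lemma e_apply_ij {k i j : ZMod p} (x : ZMod m) (h : NonAdj i j) :
    e k (i, j, x) = if k = i then (i, j, -x) else if k = j then (i, j, 1 - x) else (i, j, x) := by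
  show eFun k (i, j, x) = _
  unfold eFun
  simp [h]

lemma e_apply_adj {k i j : ZMod p} (x : ZMod m) (h : ¬ NonAdj i j) :
    e k (i, j, x) = (i, j, x) := by
  show eFun k (i, j, x) = _
  unfold eFun
  simp [h]

lemma e_sq (k : ZMod p) : (e k : Equiv.Perm (X p m)) * e k = 1 := by
  ext1 a
  exact eFun_inv k a

lemma e_inv (k : ZMod p) : (e k : Equiv.Perm (X p m))⁻¹ = e k := by
  rw [inv_eq_iff_mul_eq_one]; exact e_sq k

lemma r_apply (σ : Equiv.Perm (ZMod p)) (i j : ZMod p) (x : ZMod m) :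
    r m σ (i, j, x) = (σ i, σ j, x) := rfl

/-- `r` of a symmetry of the cycle conjugates `e k` to `e (σ k)` -/
lemma r_mul_e (σ : Equiv.Perm (ZMod p)) (hσ : ∀ i j, NonAdj (σ i) (σ j) ↔ NonAdj i j)
    (k : ZMod p) : r m σ * e k = e (σ k) * r m σ := by
  ext1 ⟨i, j, x⟩
  show r m σ (e k (i, j, x)) = e (σ k) (σ i, σ j, x)
  by_cases h : NonAdj i j
  · have h' : NonAdj (σ i) (σ j) := (hσ i j).mpr h
    rw [e_apply_ij x h, e_apply_ij x h']
    by_cases h1 : k = i
    · subst h1; simp [r_apply]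
    · by_cases h2 : k = j
      · subst h2; simp [r_apply, h1]
      · simp [r_apply, h1, h2]
  · have h' : ¬ NonAdj (σ i) (σ j) := fun hh => h ((hσ i j).mp hh)
    rw [e_apply_adj x h, e_apply_adj x h', r_apply]

lemma s0_apply (x : ZMod p) : s0 p x = 1 - x := rfl
lemma s1_apply (x : ZMod p) : s1 p x = -x := rfl

lemma s0_nonadj (i j : ZMod p) : NonAdj (s0 p i) (s0 p j) ↔ NonAdj i j := by
  unfold NonAdj
  rw [s0_apply, s0_apply]
  constructor
  · rintro ⟨h1, h2, h3⟩
    refine ⟨fun h => h1 (by rw [h]), fun h => h3 (by rw [h]; ring), fun h => h2 (by rw [h]; ring)⟩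
  · rintro ⟨h1, h2, h3⟩
    refine ⟨fun h => h1 (by linear_combination -h), fun h => h3 (by linear_combination h),
      fun h => h2 (by linear_combination h)⟩

lemma s1_nonadj (i j : ZMod p) : NonAdj (s1 p i) (s1 p j) ↔ NonAdj i j := by
  unfold NonAdj
  rw [s1_apply, s1_apply]
  constructor
  · rintro ⟨h1, h2, h3⟩
    refine ⟨fun h => h1 (by rw [h]), fun h => h3 (by rw [h]; ring), fun h => h2 (by rw [h]; ring)⟩
  · rintro ⟨h1, h2, h3⟩
    refine ⟨fun h => h1 (by linear_combination -h), fun h => h3 (by linear_combination h),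
      fun h => h2 (by linear_combination h)⟩

lemma r_injective : Function.Injective (r (p := p) m) := by
  intro σ τ h
  ext1 i
  have := congrArg (fun f : Equiv.Perm (X p m) => (f (i, i, 0)).1) h
  exact this

lemma s0_sq : s0 p * s0 p = 1 := by
  ext1 x
  show 1 - (1 - x) = x
  ring

lemma s1_sq : s1 p * s1 p = 1 := by
  ext1 x
  show - - x = x
  ring

lemma r0_sq : r m (s0 p) * r m (s0 p) = 1 := by rw [← map_mul, s0_sq, map_one]
lemma r1_sq : r m (s1 p) * r m (s1 p) = 1 := by rw [← map_mul, s1_sq, map_one]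

lemma e0_r1 : r m (s1 p) * e 0 = e 0 * r m (s1 p) := by
  rw [r_mul_e _ s1_nonadj]
  congr 2
  show - (0 : ZMod p) = 0
  ring

lemma e0_r0 : r m (s0 p) * e 0 = e 1 * r m (s0 p) := by
  rw [r_mul_e _ s0_nonadj]
  congr 2
  show 1 - (0 : ZMod p) = 1
  ring

lemma e1_r0 : r m (s0 p) * e 1 = e 0 * r m (s0 p) := by
  rw [r_mul_e _ s0_nonadj]
  congr 2
  show 1 - (1 : ZMod p) = 0
  ring

lemma e01_comm : (e 0 : Equiv.Perm (X p m)) * e 1 = e 1 * e 0 := by
  ext1 ⟨i, j, x⟩
  show e 0 (e 1 (i, j, x)) = e 1 (e 0 (i, j, x))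
  by_cases h : NonAdj i j
  · obtain ⟨h1, h2, h3⟩ := id h
    rw [e_apply_ij x h, e_apply_ij x h]
    by_cases a1 : (1 : ZMod p) = i
    · have b1 : (0 : ZMod p) ≠ j := fun hh => h2 (by rw [← a1, ← hh]; ring)
      rw [if_pos a1, e_apply_ij _ h]
      by_cases b2 : (0 : ZMod p) = i
      · rw [if_pos b2, if_pos b2, e_apply_ij _ h, if_pos a1]
      · rw [if_neg b2, if_neg b1, if_neg b2, if_neg b1, e_apply_ij _ h, if_pos a1]
    · rw [if_neg a1]
      by_cases a2 : (1 : ZMod p) = j
      · have b1 : (0 : ZMod p) ≠ i := fun hh => h3 (by rw [← a2, ← hh]; ring)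
        rw [if_pos a2, e_apply_ij _ h, if_neg b1, if_neg b1]
        by_cases b2 : (0 : ZMod p) = j
        · rw [if_pos b2, if_pos b2, e_apply_ij _ h, if_neg a1, if_pos a2]
        · rw [if_neg b2, if_neg b2, e_apply_ij _ h, if_neg a1, if_pos a2]
      · rw [if_neg a2, e_apply_ij _ h]
        by_cases b1 : (0 : ZMod p) = i
        · rw [if_pos b1, e_apply_ij _ h, if_neg a1, if_neg a2]
        · rw [if_neg b1]
          by_cases b2 : (0 : ZMod p) = j
          · rw [if_pos b2, e_apply_ij _ h, if_neg a1, if_neg a2]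
          · rw [if_neg b2, e_apply_ij _ h, if_neg a1, if_neg a2]
  · rw [e_apply_adj x h, e_apply_adj x h, e_apply_adj x h]

lemma gens0 : gens p m 0 = r m (s0 p) := rfl
lemma gens1 : gens p m 1 = r m (s1 p) := rfl
lemma gens2 : gens p m 2 = e 0 * r m (s0 p) * e 0 := rfl

/-- conjugation by `e 0` is the duality -/
lemma conj0 : e 0 * gens p m 0 * e 0 = gens p m 2 := rfl
lemma conj1 : e 0 * gens p m 1 * e 0 = gens p m 1 := by
  rw [gens1, mul_assoc, e0_r1, ← mul_assoc, e_sq, one_mul]
lemma conj2 : e 0 * gens p m 2 * e 0 = gens p m 0 := by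
  rw [gens2, gens0]
  calc e 0 * (e 0 * r m (s0 p) * e 0) * e 0 = (e 0 * e 0) * r m (s0 p) * (e 0 * e 0) := by
        simp only [mul_assoc]
    _ = r m (s0 p) := by rw [e_sq, one_mul, mul_one]

/-- the translation of the cycle -/
def tr (p : ℕ) : Equiv.Perm (ZMod p) := Equiv.addRight 1

lemma tr_apply (x : ZMod p) : tr p x = x + 1 := rfl

lemma tr_pow (n : ℕ) (x : ZMod p) : (tr p ^ n) x = x + n := by
  induction n generalizing x with
  | zero => simp
  | succ n ih =>
    rw [pow_succ]
    show (tr p ^ n) (x + 1) = _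
    rw [ih]
    push_cast
    ring

lemma orderOf_tr : orderOf (tr p) = p := by
  apply Nat.dvd_antisymm
  · rw [orderOf_dvd_iff_pow_eq_one]
    ext1 x
    rw [tr_pow]
    simp
  · rw [← ZMod.natCast_eq_zero_iff]
    have := pow_orderOf_eq_one (tr p)
    have h2 := congrArg (fun f : Equiv.Perm (ZMod p) => f 0) this
    simp only [tr_pow, zero_add] at h2
    exact h2

lemma s0_s1 : s0 p * s1 p = tr p := by
  ext1 x
  show 1 - (-x) = x + 1
  ring

lemma tr_nonadj (i j : ZMod p) : NonAdj (tr p i) (tr p j) ↔ NonAdj i j := by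
  rw [← s0_s1]
  show NonAdj (s0 p (s1 p i)) (s0 p (s1 p j)) ↔ _
  rw [s0_nonadj, s1_nonadj]

lemma order01 : orderOf (gens p m 0 * gens p m 1) = p := by
  rw [gens0, gens1, ← map_mul, s0_s1, orderOf_injective (r m) r_injective, orderOf_tr]

lemma order12 : orderOf (gens p m 1 * gens p m 2) = p := by
  have h : gens p m 1 * gens p m 2 = e 0 * (gens p m 0 * gens p m 1)⁻¹ * (e 0)⁻¹ := by
    have h1 : (gens p m 0)⁻¹ = gens p m 0 := by
      rw [inv_eq_iff_mul_eq_one]; exact r0_sq
    have h2 : (gens p m 1)⁻¹ = gens p m 1 := by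
      rw [inv_eq_iff_mul_eq_one]; exact r1_sq
    rw [mul_inv_rev, h1, h2, e_inv, gens2, gens0, gens1]
    rw [← mul_assoc, ← mul_assoc, e0_r1, ← mul_assoc]
  rw [h]
  have h3 : orderOf (MulAut.conj (e 0) (gens p m 0 * gens p m 1)⁻¹) = p := by
    rw [MulEquiv.orderOf_eq, orderOf_inv, order01]
  rw [MulAut.conj_apply] at h3
  exact h3

lemma comm02 : (gens p m 0 * gens p m 2) ^ 2 = 1 := by
  have h : gens p m 0 * gens p m 2 = e 1 * e 0 := by
    rw [gens0, gens2, ← mul_assoc, ← mul_assoc, e0_r0, mul_assoc (e 1), r0_sq, mul_one]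
  rw [h, pow_two]
  calc (e 1 : Equiv.Perm (X p m)) * e 0 * (e 1 * e 0) = e 1 * (e 0 * e 1) * e 0 := by
        simp only [mul_assoc]
    _ = (e 1 * e 1) * (e 0 * e 0) := by rw [e01_comm]; simp only [mul_assoc]
    _ = 1 := by rw [e_sq, e_sq, one_mul]

lemma prod20 : gens p m 2 * gens p m 0 = e 0 * e 1 := by
  rw [gens0, gens2, mul_assoc (e 0), e0_r0, ← mul_assoc, mul_assoc _ (r m (s0 p)), r0_sq, mul_one]

/-- the dihedral group acting on the cycle, as a set of permutations -/
lemma dih {σ : Equiv.Perm (ZMod p)} (h : σ ∈ Subgroup.closure {s0 p, s1 p}) :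
    ∃ c : ZMod p, (∀ x, σ x = x + c) ∨ (∀ x, σ x = c - x) := by
  induction h using Subgroup.closure_induction with
  | mem x hx =>
    rcases hx with rfl | rfl
    · exact ⟨1, Or.inr fun x => rfl⟩
    · exact ⟨0, Or.inr fun x => by rw [s1_apply]; ring⟩
  | one => exact ⟨0, Or.inl fun x => by simp⟩
  | mul σ τ _ _ h1 h2 =>
    obtain ⟨a, ha⟩ := h1
    obtain ⟨b, hb⟩ := h2
    rcases ha with ha | ha <;> rcases hb with hb | hb
    · exact ⟨a + b, Or.inl fun x => by rw [Equiv.Perm.mul_apply, hb, ha]; ring⟩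
    · exact ⟨a + b, Or.inr fun x => by rw [Equiv.Perm.mul_apply, hb, ha]; ring⟩
    · exact ⟨a - b, Or.inr fun x => by rw [Equiv.Perm.mul_apply, hb, ha]; ring⟩
    · exact ⟨a - b, Or.inl fun x => by rw [Equiv.Perm.mul_apply, hb, ha]; ring⟩
  | inv σ _ h1 =>
    obtain ⟨a, ha⟩ := h1
    rcases ha with ha | ha
    · refine ⟨-a, Or.inl fun x => ?_⟩
      rw [Equiv.Perm.inv_eq_iff_eq, ha]; ring
    · refine ⟨a, Or.inr fun x => ?_⟩
      rw [Equiv.Perm.inv_eq_iff_eq, ha]; ring

lemma dih_nonadj {σ : Equiv.Perm (ZMod p)} (h : σ ∈ Subgroup.closure {s0 p, s1 p}) (i j : ZMod p) :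
    NonAdj (σ i) (σ j) ↔ NonAdj i j := by
  induction h using Subgroup.closure_induction generalizing i j with
  | mem x hx =>
    rcases hx with rfl | rfl
    · exact s0_nonadj i j
    · exact s1_nonadj i j
  | one => rfl
  | mul σ τ _ _ h1 h2 =>
    rw [Equiv.Perm.mul_apply, Equiv.Perm.mul_apply, h1, h2]
  | inv σ _ h1 =>
    have a : ∀ x, σ (σ⁻¹ x) = x := fun x => by simp
    rw [← h1 (σ⁻¹ i) (σ⁻¹ j), a, a]

lemma closure_pair01 : Subgroup.closure {gens p m 0, gens p m 1} =
    (Subgroup.closure {s0 p, s1 p}).map (r m) := by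
  rw [MonoidHom.map_closure, Set.image_pair, gens0, gens1]

lemma closure_pair12 : Subgroup.closure {gens p m 1, gens p m 2} =
    ((Subgroup.closure {s0 p, s1 p}).map (r m)).map (MulAut.conj (e 0)).toMonoidHom := by
  have h0 : (MulAut.conj (e 0)).toMonoidHom (gens p m 0) = gens p m 2 := by
    show e 0 * gens p m 0 * (e 0)⁻¹ = gens p m 2
    rw [e_inv, conj0]
  have h1 : (MulAut.conj (e 0)).toMonoidHom (gens p m 1) = gens p m 1 := by
    show e 0 * gens p m 1 * (e 0)⁻¹ = gens p m 1
    rw [e_inv, conj1]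
  rw [← closure_pair01, MonoidHom.map_closure, Set.image_pair, h0, h1, Set.pair_comm]

lemma nonadj_of_sub {i j : ℕ} (hij : i + 2 ≤ j) (hj : j + 2 ≤ i + p) :
    NonAdj ((i : ℕ) : ZMod p) ((j : ℕ) : ZMod p) := by
  refine ⟨?_, ?_, ?_⟩
  · intro h
    rw [ZMod.natCast_eq_natCast_iff'] at h
    have h1 : (i : ℕ) ≡ j [MOD p] := h
    have h2 := (Nat.modEq_iff_dvd' (by omega)).mp h1
    have := Nat.le_of_dvd (by omega) h2
    omega
  · intro h
    have h0 : ((i : ℕ) : ZMod p) = ((j + 1 : ℕ) : ZMod p) := by push_cast; exact h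
    rw [ZMod.natCast_eq_natCast_iff'] at h0
    have h1 : (i : ℕ) ≡ j + 1 [MOD p] := h0
    have h2 := (Nat.modEq_iff_dvd' (by omega)).mp h1
    have := Nat.le_of_dvd (by omega) h2
    omega
  · intro h
    have h0 : ((i + 1 : ℕ) : ZMod p) = ((j : ℕ) : ZMod p) := by push_cast; exact h.symm
    rw [ZMod.natCast_eq_natCast_iff'] at h0
    have h1 : (i + 1 : ℕ) ≡ j [MOD p] := h0
    have h2 := (Nat.modEq_iff_dvd' (by omega)).mp h1
    have := Nat.le_of_dvd (by omega) h2
    omega

lemma two_ne {m : ℕ} (hm : 3 ≤ m) (hodd : Odd m) : (2 : ZMod m) ≠ 0 := by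
  intro h
  have h1 : ((2 : ℕ) : ZMod m) = 0 := by exact_mod_cast h
  rw [ZMod.natCast_eq_zero_iff] at h1
  have := Nat.le_of_dvd (by norm_num) h1
  omega

lemma e_inj0 (h5 : 5 ≤ p) (hm : 3 ≤ m) (hodd : Odd m) {k : ZMod p}
    (h : (e k : Equiv.Perm (X p m)) = e 0) : k = 0 := by
  by_contra hk
  have h2ne := two_ne hm hodd
  have key : ∀ j : ZMod p, NonAdj 0 j → k = j := by
    intro j hj
    by_contra hkj
    have h1 := congrArg (fun f : Equiv.Perm (X p m) => f (0, j, 1)) h
    simp only [e_apply_ij _ hj, if_neg hk, if_neg hkj, if_true, Prod.mk.injEq, true_and] at h1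
    apply h2ne
    linear_combination h1
  have n2 : NonAdj (0 : ZMod p) 2 := by
    have := nonadj_of_sub (p := p) (i := 0) (j := 2) (by norm_num) (by omega)
    push_cast at this
    exact this
  have n3 : NonAdj (0 : ZMod p) 3 := by
    have := nonadj_of_sub (p := p) (i := 0) (j := 3) (by norm_num) (by omega)
    push_cast at this
    exact this
  have h23 : (2 : ZMod p) = 3 := (key 2 n2).symm.trans (key 3 n3)
  have h10 : ((1 : ℕ) : ZMod p) = 0 := by push_cast; linear_combination -h23
  rw [ZMod.natCast_eq_zero_iff] at h10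
  have := Nat.le_of_dvd (by norm_num) h10
  omega

lemma inter (h5 : 5 ≤ p) (hm : 3 ≤ m) (hodd : Odd m) :
    Subgroup.closure {gens p m 0, gens p m 1} ⊓ Subgroup.closure {gens p m 1, gens p m 2} =
      Subgroup.closure {gens p m 1} := by
  apply le_antisymm
  · rintro g ⟨h1, h2⟩
    rw [closure_pair01] at h1
    rw [closure_pair12] at h2
    obtain ⟨σ, hσ, rfl⟩ := h1
    obtain ⟨_, ⟨τ, hτ, rfl⟩, h3⟩ := h2
    have h4 : e 0 * r m τ * (e 0)⁻¹ = r m σ := h3
    rw [e_inv, mul_assoc, r_mul_e τ (dih_nonadj hτ), ← mul_assoc] at h4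
    have hfst : σ = τ := by
      ext1 i
      have h5 := congrArg (fun f : Equiv.Perm (X p m) => (f (i, i, 0)).1) h4
      have h6 : (eFun 0 (eFun (τ 0) (τ i, τ i, (0 : ZMod m)))).1 = σ i := h5
      rw [eFun_fst, eFun_fst] at h6
      exact h6.symm
    rw [hfst] at h4
    have h7 : (e 0 : Equiv.Perm (X p m)) * e (τ 0) = 1 := by
      have := mul_right_cancel (h4.trans (one_mul (r m τ)).symm)
      exact this
    have h8 : (e (τ 0) : Equiv.Perm (X p m)) = e 0 := by
      have := (mul_eq_one_iff_inv_eq.mp h7)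
      rw [e_inv] at this
      exact this.symm
    have h9 := e_inj0 h5 hm hodd h8
    obtain ⟨c, hc⟩ := dih hτ
    rw [hfst]
    rcases hc with hc | hc
    · have : c = 0 := by have := hc 0; rw [h9] at this; linear_combination -this
      have : τ = 1 := by
        ext1 x
        rw [hc, this]; simp
      rw [this]
      show r m 1 ∈ Subgroup.closure {gens p m 1}
      rw [map_one]
      exact one_mem _
    · have : c = 0 := by have := hc 0; rw [h9] at this; linear_combination -this
      have : τ = s1 p := by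
        ext1 x
        rw [hc, this, s1_apply]; ring
      rw [this]
      exact Subgroup.subset_closure rfl
  · rw [Subgroup.closure_le]
    rintro _ rfl
    refine ⟨Subgroup.subset_closure ?_, Subgroup.subset_closure ?_⟩
    · simp
    · simp

lemma ne_one_of {p : ℕ} (h5 : 5 ≤ p) (n : ℕ) (h0 : 0 < n) (hn : n < 5) : ((n : ℕ) : ZMod p) ≠ 0 := by
  intro h
  rw [ZMod.natCast_eq_zero_iff] at h
  have := Nat.le_of_dvd h0 h
  omega

lemma stringC (h5 : 5 ≤ p) (hm : 3 ≤ m) (hodd : Odd m) : IsStringC (gens p m) := by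
  have h0 : orderOf (gens p m 0) = 2 := by
    apply orderOf_eq_prime
    · rw [pow_two]; exact r0_sq
    · intro h
      have h1 : s0 p = 1 := r_injective (h.trans (map_one (r m)).symm)
      have h2 := congrArg (fun f : Equiv.Perm (ZMod p) => f 0) h1
      have h3 : (1 : ZMod p) - 0 = 0 := h2
      apply ne_one_of h5 1 (by norm_num) (by norm_num)
      push_cast
      linear_combination h3
  refine ⟨?_, comm02, inter h5 hm hodd⟩
  intro i
  fin_cases i
  · exact h0
  · apply orderOf_eq_prime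
    · rw [pow_two]; exact r1_sq
    · intro h
      have h1 : s1 p = 1 := r_injective (h.trans (map_one (r m)).symm)
      have h2 := congrArg (fun f : Equiv.Perm (ZMod p) => f 1) h1
      have h3 : -(1 : ZMod p) = 1 := h2
      apply ne_one_of h5 2 (by norm_num) (by norm_num)
      push_cast
      linear_combination -h3
  · show orderOf (gens p m 2) = 2
    have h3 : orderOf (MulAut.conj (e 0) (gens p m 0)) = 2 := by
      rw [MulEquiv.orderOf_eq, h0]
    rw [MulAut.conj_apply, e_inv, conj0] at h3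
    exact h3

lemma gens_mem (i : Fin 3) : gens p m i ∈ gp (gens p m) := Subgroup.subset_closure ⟨i, rfl⟩

lemma ee_mem (n : ℕ) : (e (n : ZMod p) : Equiv.Perm (X p m)) * e ((n : ZMod p) + 1) ∈
    gp (gens p m) := by
  induction n with
  | zero =>
    have := (gp (gens p m)).mul_mem (gens_mem 2) (gens_mem 0)
    rw [prod20] at this
    simpa using this
  | succ n ih =>
    have ht : r m (tr p) ∈ gp (gens p m) := by
      rw [← s0_s1, map_mul]
      exact (gp (gens p m)).mul_mem (gens_mem 0) (gens_mem 1)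
    have h := (gp (gens p m)).mul_mem ((gp (gens p m)).mul_mem ht ih) ((gp (gens p m)).inv_mem ht)
    have h2 : r m (tr p) * (e (n : ZMod p) * e ((n : ZMod p) + 1)) * (r m (tr p))⁻¹ =
        e ((n : ZMod p) + 1) * e ((n : ZMod p) + 1 + 1) := by
      rw [← mul_assoc, r_mul_e _ tr_nonadj, mul_assoc (e _), r_mul_e _ tr_nonadj, ← mul_assoc,
        mul_assoc _ _ (r m (tr p))⁻¹, mul_inv_cancel, mul_one]
      rfl
    rw [h2] at h
    push_cast
    exact h

/-- the product `e 0 * e 1 * ... * e (n - 1)` -/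
noncomputable def W (p m : ℕ) : ℕ → Equiv.Perm (X p m)
  | 0 => 1
  | n + 1 => W p m n * e (n : ZMod p)

lemma W_even (n : ℕ) : W p m (2 * n) ∈ gp (gens p m) := by
  induction n with
  | zero => exact one_mem _
  | succ n ih =>
    show W p m (2 * n) * e ((2 * n : ℕ) : ZMod p) * e ((2 * n + 1 : ℕ) : ZMod p) ∈ _
    rw [mul_assoc]
    apply (gp (gens p m)).mul_mem ih
    have := ee_mem (p := p) (m := m) (2 * n)
    push_cast at this ⊢
    exact this

/-- the action of `W p m n` on the block of `i, j` -/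
def F {m : ℕ} (n i j : ℕ) (x : ZMod m) : ZMod m :=
  if i < n then (if j < n then (if i < j then x - 1 else x + 1) else -x)
  else (if j < n then 1 - x else x)

lemma W_apply [NeZero p] (n : ℕ) (hn : n ≤ p) {i j : ZMod p} (h : NonAdj i j) (x : ZMod m) :
    W p m n (i, j, x) = (i, j, F n i.val j.val x) := by
  induction n generalizing x with
  | zero => simp [W, F]
  | succ n ih =>
    show W p m n (e (n : ZMod p) (i, j, x)) = _
    rw [e_apply_ij _ h]
    have hi : (n : ZMod p) = i ↔ n = i.val := by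
      constructor
      · intro hh; rw [← hh, ZMod.val_natCast_of_lt (by omega)]
      · intro hh; rw [hh]; exact ZMod.natCast_zmod_val i
    have hj : (n : ZMod p) = j ↔ n = j.val := by
      constructor
      · intro hh; rw [← hh, ZMod.val_natCast_of_lt (by omega)]
      · intro hh; rw [hh]; exact ZMod.natCast_zmod_val j
    have hij : i.val ≠ j.val := fun hh => h.1 (ZMod.val_injective p hh)
    simp only [hi, hj]
    by_cases h1 : n = i.val
    · rw [if_pos h1, ih (by omega)]
      unfold F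
      rw [if_neg (show ¬ i.val < n by omega), if_pos (show i.val < n + 1 by omega)]
      by_cases h2 : j.val < n
      · rw [if_pos h2, if_pos (show j.val < n + 1 by omega), if_neg (show ¬ i.val < j.val by omega)]
        congr 2; ring
      · rw [if_neg h2, if_neg (show ¬ j.val < n + 1 by omega)]
    · rw [if_neg h1]
      by_cases h2 : n = j.val
      · rw [if_pos h2, ih (by omega)]
        unfold F
        rw [if_neg (show ¬ j.val < n by omega), if_neg (show ¬ j.val < n by omega),
          if_pos (show j.val < n + 1 by omega), if_pos (show j.val < n + 1 by omega)]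
        by_cases h3 : i.val < n
        · rw [if_pos h3, if_pos (show i.val < n + 1 by omega), if_pos (show i.val < j.val by omega)]
          congr 2; ring
        · rw [if_neg h3, if_neg (show ¬ i.val < n + 1 by omega)]
      · rw [if_neg h2, ih (by omega)]
        unfold F
        have a1 : (i.val < n) ↔ (i.val < n + 1) := by omega
        have a2 : (j.val < n) ↔ (j.val < n + 1) := by omega
        simp only [a1, a2]

lemma W_apply_adj (n : ℕ) {i j : ZMod p} (h : ¬ NonAdj i j) (x : ZMod m) :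
    W p m n (i, j, x) = (i, j, x) := by
  induction n generalizing x with
  | zero => rfl
  | succ n ih =>
    show W p m n (e (n : ZMod p) (i, j, x)) = _
    rw [e_apply_adj _ h, ih]

/-- a permutation that translates every block has order dividing `m` -/
lemma pow_translate {g : Equiv.Perm (X p m)} {i j : ZMod p} (c : ZMod m)
    (hg : ∀ x, g (i, j, x) = (i, j, x + c)) (n : ℕ) (x : ZMod m) :
    (g ^ n) (i, j, x) = (i, j, x + n * c) := by
  induction n generalizing x with
  | zero => simp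
  | succ n ih =>
    rw [pow_succ, Equiv.Perm.mul_apply, hg, ih]
    push_cast
    congr 2
    ring

lemma W_pow [NeZero p] : (W p m p) ^ m = 1 := by
  ext1 ⟨i, j, x⟩
  show (W p m p ^ m) (i, j, x) = (i, j, x)
  by_cases h : NonAdj i j
  · by_cases h1 : i.val < j.val
    · rw [pow_translate (-1)]
      · simp
      · intro y
        rw [W_apply p le_rfl h]
        unfold F
        rw [if_pos (ZMod.val_lt i), if_pos (ZMod.val_lt j), if_pos h1]
        congr 2
        exact sub_eq_add_neg y 1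
    · rw [pow_translate 1]
      · simp
      · intro y
        rw [W_apply p le_rfl h]
        unfold F
        rw [if_pos (ZMod.val_lt i), if_pos (ZMod.val_lt j), if_neg h1]
  · rw [pow_translate 0]
    · simp
    · intro y
      rw [W_apply_adj _ h, add_zero]

lemma conj_gens_mem (i : Fin 3) : e 0 * gens p m i * e 0 ∈ gp (gens p m) := by
  fin_cases i
  · show e 0 * gens p m 0 * e 0 ∈ _
    rw [conj0]; exact gens_mem 2
  · show e 0 * gens p m 1 * e 0 ∈ _
    rw [conj1]; exact gens_mem 1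
  · show e 0 * gens p m 2 * e 0 ∈ _
    rw [conj2]; exact gens_mem 0

lemma conj_mem {h : Equiv.Perm (X p m)} (hh : h ∈ gp (gens p m)) :
    e 0 * h * e 0 ∈ gp (gens p m) := by
  unfold gp at hh
  induction hh using Subgroup.closure_induction with
  | mem x hx => obtain ⟨i, rfl⟩ := hx; exact conj_gens_mem i
  | one => rw [mul_one, e_sq]; exact one_mem _
  | mul a b _ _ ha hb =>
    have : e 0 * (a * b) * e 0 = (e 0 * a * e 0) * (e 0 * b * e 0) := by
      calc e 0 * (a * b) * e 0 = e 0 * a * 1 * b * e 0 := by simp only [mul_assoc, one_mul]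
        _ = e 0 * a * (e 0 * e 0) * b * e 0 := by rw [e_sq]
        _ = _ := by simp only [mul_assoc]
    rw [this]
    exact mul_mem ha hb
  | inv a _ ha =>
    have : e 0 * a⁻¹ * e 0 = (e 0 * a * e 0)⁻¹ := by
      rw [mul_inv_rev, mul_inv_rev, e_inv, mul_assoc]
    rw [this]
    exact inv_mem ha

lemma e0_mem (hp : Odd p) (hm : Odd m) : (e 0 : Equiv.Perm (X p m)) ∈ gp (gens p m) := by
  obtain ⟨k, hk⟩ := hp
  have : NeZero p := ⟨by omega⟩
  set H := gp (gens p m) with hH
  -- the element `h = W p * e 0` is in the group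
  have hpm : (e ((2 * k : ℕ) : ZMod p) : Equiv.Perm (X p m)) * e 0 ∈ H := by
    have := ee_mem (p := p) (m := m) (2 * k)
    have h0 : ((2 * k : ℕ) : ZMod p) + 1 = 0 := by
      have : ((2 * k + 1 : ℕ) : ZMod p) = 0 := by rw [← hk]; simp
      push_cast at this ⊢
      exact this
    rw [h0] at this
    exact this
  have hW : W p m p = W p m (2 * k) * e ((2 * k : ℕ) : ZMod p) := by
    have : ∀ n : ℕ, n = 2 * k + 1 →
        W p m n = W p m (2 * k) * e ((2 * k : ℕ) : ZMod p) := by
      rintro _ rfl; rfl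
    exact this p hk
  have hh : W p m p * e 0 ∈ H := by
    rw [hW, mul_assoc]
    exact mul_mem (W_even k) hpm
  obtain ⟨l, hl⟩ := hm
  have hWW : W p m p * W p m p ∈ H := by
    have h1 : W p m p * W p m p = (W p m p * e 0) * (e 0 * (W p m p * e 0) * e 0) := by
      calc W p m p * W p m p = W p m p * 1 * W p m p * 1 := by simp only [mul_one]
        _ = W p m p * (e 0 * e 0) * W p m p * (e 0 * e 0) := by rw [e_sq]
        _ = _ := by simp only [mul_assoc]
    rw [h1]
    exact mul_mem hh (conj_mem hh)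
  have hpow : (W p m p) ^ (2 * l) * W p m p = 1 := by
    rw [← pow_succ, ← hl]; exact W_pow
  have h3 : W p m p ∈ H := by
    have h4 : (W p m p) ^ (2 * l) ∈ H := by
      rw [pow_mul, pow_two]; exact pow_mem hWW l
    have h5 : W p m p = ((W p m p) ^ (2 * l))⁻¹ := by
      rw [eq_inv_iff_mul_eq_one, mul_eq_one_comm]; exact hpow
    rw [h5]
    exact inv_mem h4
  have h6 : (e 0 : Equiv.Perm (X p m)) = (W p m p)⁻¹ * (W p m p * e 0) := by
    rw [← mul_assoc, inv_mul_cancel, one_mul]
  rw [h6]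
  exact mul_mem (inv_mem h3) hh

lemma isd (hp : Odd p) (hm : Odd m) : InternallySelfDual (gens p m) := by
  refine ⟨e 0, e0_mem hp hm, ?_⟩
  intro i
  rw [e_inv]
  fin_cases i
  · exact conj0
  · exact conj1
  · exact conj2

end

/-- the word `(ρ 2 * ρ 0) * ((ρ 0 * ρ 1) * (ρ 2 * ρ 0) * (ρ 0 * ρ 1)⁻¹)` -/
def word {A : Type} [Group A] (ρ : Fin 3 → A) : A :=
  (ρ 2 * ρ 0) * ((ρ 0 * ρ 1) * (ρ 2 * ρ 0) * (ρ 0 * ρ 1)⁻¹)

section

variable {p m : ℕ}

lemma word_gens : word (gens p m) = e 0 * e 2 := by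
  unfold word
  rw [prod20]
  have h1 : gens p m 0 * gens p m 1 = r m (tr p) := by rw [gens0, gens1, ← map_mul, s0_s1]
  rw [h1]
  have h2 : r m (tr p) * (e 0 * e 1) * (r m (tr p))⁻¹ = e 1 * e 2 := by
    rw [← mul_assoc, r_mul_e _ tr_nonadj, mul_assoc (e _), r_mul_e _ tr_nonadj, ← mul_assoc,
        mul_assoc _ _ (r m (tr p))⁻¹, mul_inv_cancel, mul_one]
    rw [tr_apply, tr_apply]
    congr 2
    · ring
    · ring
  rw [h2, mul_assoc, ← mul_assoc (e 1), e_sq, one_mul]

/-- `(e 0 * e 2) ^ (2 * m) = 1` -/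
lemma word_pow (h5 : 5 ≤ p) : (word (gens p m)) ^ (2 * m) = 1 := by
  rw [word_gens]
  have h02 : (0 : ZMod p) ≠ 2 := by
    intro h
    apply ne_one_of h5 2 (by norm_num) (by norm_num)
    push_cast
    exact h.symm
  ext1 ⟨i, j, x⟩
  show ((e 0 * e 2 : Equiv.Perm (X p m)) ^ (2 * m)) (i, j, x) = (i, j, x)
  rw [pow_mul]
  by_cases h : NonAdj i j
  · have step : ∀ y : ZMod m, (e 0 * e 2 : Equiv.Perm (X p m)) (i, j, y) =
        e 0 (e 2 (i, j, y)) := fun y => rfl
    by_cases h1 : (0 : ZMod p) = i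
    · subst h1
      by_cases h2 : (2 : ZMod p) = j
      · subst h2
        rw [pow_translate (-2)]
        · simp
        · intro y
          rw [pow_two, Equiv.Perm.mul_apply, step, e_apply_ij _ h, if_neg h02.symm, if_pos rfl,
            e_apply_ij _ h, if_pos rfl, step, e_apply_ij _ h, if_neg h02.symm, if_pos rfl,
            e_apply_ij _ h, if_pos rfl]
          congr 2
          ring
      · rw [pow_translate 0]
        · simp
        · intro y
          rw [pow_two, Equiv.Perm.mul_apply, step, e_apply_ij _ h, if_neg h02.symm, if_neg h2,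
            e_apply_ij _ h, if_pos rfl, step, e_apply_ij _ h, if_neg h02.symm, if_neg h2,
            e_apply_ij _ h, if_pos rfl]
          congr 2
          ring
    · by_cases h2 : (0 : ZMod p) = j
      · subst h2
        by_cases h3 : (2 : ZMod p) = i
        · subst h3
          rw [pow_translate 2]
          · simp
          · intro y
            rw [pow_two, Equiv.Perm.mul_apply, step, e_apply_ij _ h, if_pos rfl,
              e_apply_ij _ h, if_neg h1, if_pos rfl, step, e_apply_ij _ h, if_pos rfl,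
              e_apply_ij _ h, if_neg h1, if_pos rfl]
            congr 2
            ring
        · rw [pow_translate 0]
          · simp
          · intro y
            rw [pow_two, Equiv.Perm.mul_apply, step, e_apply_ij _ h, if_neg h3, if_neg h02.symm,
              e_apply_ij _ h, if_neg h1, if_pos rfl, step, e_apply_ij _ h, if_neg h3,
              if_neg h02.symm, e_apply_ij _ h, if_neg h1, if_pos rfl]
            congr 2
            ring
      · rw [pow_translate 0]
        · simp
        · intro y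
          have e0id : ∀ z : ZMod m, (e 0 : Equiv.Perm (X p m)) (i, j, z) = (i, j, z) := by
            intro z
            rw [e_apply_ij _ h, if_neg h1, if_neg h2]
          have e2fst : ∀ z : ZMod m, ∃ w : ZMod m, (e 2 : Equiv.Perm (X p m)) (i, j, z) = (i, j, w) := by
            intro z
            rw [e_apply_ij _ h]
            split_ifs
            · exact ⟨_, rfl⟩
            · exact ⟨_, rfl⟩
            · exact ⟨_, rfl⟩
          obtain ⟨w, hw⟩ := e2fst y
          rw [pow_two, Equiv.Perm.mul_apply, step, hw, e0id, step]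
          have hsq : (e 2 : Equiv.Perm (X p m)) (i, j, w) = (i, j, y) := by
            rw [← hw]
            exact eFun_inv 2 (i, j, y)
          rw [hsq, e0id, add_zero]
  · rw [pow_translate 0]
    · simp
    · intro y
      rw [pow_two, Equiv.Perm.mul_apply]
      show e 0 (e 2 (e 0 (e 2 (i, j, y)))) = _
      rw [e_apply_adj _ h, e_apply_adj _ h, e_apply_adj _ h, e_apply_adj _ h, add_zero]

lemma dvd_of_word_pow (h5 : 5 ≤ p) {n : ℕ} (hn : (word (gens p m)) ^ n = 1) : m ∣ n := by
  rw [word_gens] at hn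
  have h02 : (2 : ZMod p) ≠ 0 := by
    intro h
    apply ne_one_of h5 2 (by norm_num) (by norm_num)
    push_cast
    exact h
  have h : NonAdj (0 : ZMod p) 2 := by
    have := nonadj_of_sub (p := p) (i := 0) (j := 2) (by norm_num) (by omega)
    push_cast at this
    exact this
  have h1 := congrArg (fun f : Equiv.Perm (X p m) => f (0, 2, 0)) hn
  have h2 : ((e 0 * e 2 : Equiv.Perm (X p m)) ^ n) (0, 2, 0) = (0, 2, 0) := h1
  rw [pow_translate (-1)] at h2
  · have h3 : (0 : ZMod m) + n * -1 = 0 := congrArg (fun a : X p m => a.2.2) h2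
    rw [← ZMod.natCast_eq_zero_iff]
    linear_combination -h3
  · intro y
    show e 0 (e 2 (0, 2, y)) = _
    rw [e_apply_ij _ h, if_neg h02, if_pos rfl, e_apply_ij _ h, if_pos rfl]
    congr 2
    ring

/-- an isomorphism transports the relations satisfied by the word -/
lemma word_iso {A B : Type} [Group A] [Group B] {ρ : Fin 3 → A} {σ : Fin 3 → B} (h : Iso ρ σ)
    {n : ℕ} (hn : word ρ ^ n = 1) : word σ ^ n = 1 := by
  obtain ⟨φ, hφ⟩ := h
  let ρ' : Fin 3 → gp ρ := fun i => ⟨ρ i, Subgroup.subset_closure ⟨i, rfl⟩⟩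
  have h1 : ((word ρ' : gp ρ) : A) = word ρ := rfl
  have h2 : (word ρ') ^ n = 1 := by
    apply Subtype.ext
    rw [Subgroup.coe_pow, h1, hn]; rfl
  have h3 : ((φ (word ρ') : gp σ) : B) = word σ := by
    unfold word
    simp only [map_mul, map_inv, Subgroup.coe_mul, Subgroup.coe_inv]
    rw [hφ 0, hφ 1, hφ 2]
  have h4 : (φ (word ρ')) ^ n = 1 := by rw [← map_pow, h2, map_one]
  rw [← h3, ← Subgroup.coe_pow, h4]; rfl

lemma not_iso_of_lt (h5 : 5 ≤ p) {m m' : ℕ} (hm : 3 ≤ m) (h : m < m') (hodd : Odd m') :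
    ¬ Iso (gens p m) (gens p m') := by
  intro hi
  have h1 := word_iso hi (word_pow (m := m) h5)
  have h2 := dvd_of_word_pow h5 h1
  have h3 : m' ∣ m := by
    apply (Nat.Coprime.dvd_of_dvd_mul_left _ h2)
    exact (Nat.coprime_two_right.mpr hodd)
  have := Nat.le_of_dvd (by omega) h3
  omega

lemma Iso.symm' {A B : Type} [Group A] [Group B] {ρ : Fin 3 → A} {σ : Fin 3 → B} (h : Iso ρ σ) :
    Iso σ ρ := by
  obtain ⟨φ, hφ⟩ := h
  refine ⟨φ.symm, fun i => ?_⟩
  have : φ ⟨ρ i, Subgroup.subset_closure ⟨i, rfl⟩⟩ = ⟨σ i, Subgroup.subset_closure ⟨i, rfl⟩⟩ :=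
    Subtype.ext (hφ i)
  rw [← this, MulEquiv.symm_apply_apply]

end

/-- **For every odd `p ≥ 5` there are infinitely many internally self-dual regular polyhedra of
type `{p, p}`**: the triples `gens p (2 * n + 3)`, `n = 0, 1, 2, ...`, of permutations of a finite
set define pairwise non-isomorphic ones. -/
theorem result (p : ℕ) (hp : Odd p) (h5 : 5 ≤ p) :
    (∀ n : ℕ, IsStringC (gens p (2 * n + 3)) ∧ HasType (gens p (2 * n + 3)) p p ∧
      InternallySelfDual (gens p (2 * n + 3)) ∧ Finite (gp (gens p (2 * n + 3)))) ∧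
    ∀ n k : ℕ, n ≠ k → ¬ Iso (gens p (2 * n + 3)) (gens p (2 * k + 3)) := by
  have hodd : ∀ n : ℕ, Odd (2 * n + 3) := fun n => ⟨n + 1, by ring⟩
  refine ⟨fun n => ⟨stringC h5 (by omega) (hodd n), ⟨order01, order12⟩, isd hp (hodd n), ?_⟩, ?_⟩
  · haveI : NeZero p := ⟨by omega⟩
    infer_instance
  · intro n k hnk hi
    rcases lt_or_gt_of_ne hnk with h | h
    · exact not_iso_of_lt h5 (by omega) (by omega) (hodd k) hi
    · exact not_iso_of_lt h5 (by omega) (by omega) (hodd n) hi.symm'

end Pool.Agent.Results.MP_7f6698_co.InfiniteFamily
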